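import Pool.Agent.Helper68.TG.GoalsM
import Pool.Agent.Helper16.UN.HVB

/-!
Goal MHVT of project TG (transfer under an endomorphism): the form of `MP`.
-/

set_option autoImplicit false
set_option linter.unusedSectionVars false
set_option linter.unusedSimpArgs false

namespace Pool.Agent.Helper69.TG.MHVT

open MvPolynomial Pool.Agent.Helper68.TG.M
open Pool.Agent.Helper5.UN (hv)

noncomputable section

variable {K : Type} [Field K] {σ : Type} [Fintype σ] [DecidableEq σ]

/-- the monomials -/
def mo (K : Type) [Field K] {σ : Type} (b c : σ) (i l : ℕ) : MvPolynomial σ K :=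
  X b ^ i * X c ^ l

theorem mo_eq (b c : σ) (i l : ℕ) : mo K b c i l =
    monomial (Finsupp.single b i + Finsupp.single c l) 1 := by
  unfold mo
  rw [X_pow_eq_monomial, X_pow_eq_monomial, monomial_mul, mul_one]

/-- the exponents -/
abbrev EE (n : ℕ) (b c : σ) : σ → ℕ := fun i => if i = b then n else if i = c then 1 else 0

theorem single_le (n : ℕ) (b c : σ) (hbc : b ≠ c) (i l : ℕ) (hi : i ≤ n) (hl : l ≤ 1) (v : σ) :
    (Finsupp.single b i + Finsupp.single c l) v ≤ EE n b c v := by
  simp only [Finsupp.add_apply, Finsupp.single_apply, EE]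
  by_cases h1 : v = b
  · subst h1
    simp [Ne.symm hbc, hi]
  · by_cases h2 : v = c
    · subst h2
      simp [hbc, Ne.symm hbc, hl]
    · simp [h1, h2, Ne.symm h1, Ne.symm h2]

theorem deg_mo (n : ℕ) (b c : σ) (hbc : b ≠ c) (i l : ℕ) (hi : i ≤ n) (hl : l ≤ 1) (k : K)
    (v : σ) : degreeOf v (C k * mo K b c i l) ≤ EE n b c v := by
  refine (degreeOf_C_mul_le _ _ _).trans ?_
  rw [mo_eq, degreeOf_monomial_eq _ _ one_ne_zero]
  exact single_le n b c hbc i l hi hl v

theorem hv_mo {Ω : Type} [Field Ω] (φ : K →+* Ω) (n : ℕ) (b c : σ) (hbc : b ≠ c) (i l : ℕ)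
    (y : σ → Fin 2 → Ω) :
    hv φ (EE n b c) (mo K b c i l) y = (y b 0 ^ i * y b 1 ^ (n - i)) *
      (y c 0 ^ l * y c 1 ^ (1 - l)) := by
  classical
  have eb : EE n b c b = n := by simp [EE]
  have ec : EE n b c c = 1 := by simp [EE, Ne.symm hbc]
  unfold hv
  rw [mo_eq, support_monomial, if_neg one_ne_zero, Finset.sum_singleton, coeff_monomial,
    if_pos rfl, map_one, one_mul]
  rw [← Finset.prod_subset (Finset.subset_univ {b, c})]
  · rw [Finset.prod_pair hbc]
    simp only [eb, ec]
    simp [Finsupp.single_apply, hbc, Ne.symm hbc]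
  · intro v _ hv
    simp only [Finset.mem_insert, Finset.mem_singleton, not_or] at hv
    simp [EE, hv.1, hv.2, Ne.symm hv.1, Ne.symm hv.2]

theorem MP_eq (A B : Polynomial K) (hAB : B.natDegree < A.natDegree) (b c : σ) : MP A B b c =
    (∑ i ∈ Finset.range (A.natDegree + 1), C (B.coeff i) * mo K b c i 1) +
      ∑ i ∈ Finset.range (A.natDegree + 1), C (- A.coeff i) * mo K b c i 0 := by
  unfold MP mo
  rw [Polynomial.aeval_eq_sum_range' (n := A.natDegree + 1) (by omega) (X b),
    Polynomial.aeval_eq_sum_range' (n := A.natDegree + 1) (by omega) (X b), Finset.sum_mul,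
    sub_eq_add_neg, ← Finset.sum_neg_distrib]
  congr 1
  · refine Finset.sum_congr rfl fun i _ => ?_
    rw [smul_eq_C_mul, pow_one, mul_assoc]
  · refine Finset.sum_congr rfl fun i _ => ?_
    rw [smul_eq_C_mul, pow_zero, mul_one, map_neg, neg_mul]

theorem hv_sum {Ω : Type} [Field Ω] (φ : K →+* Ω) (E : σ → ℕ) (s : Finset ℕ)
    (F : ℕ → MvPolynomial σ K) (y : σ → Fin 2 → Ω) :
    hv φ E (∑ i ∈ s, F i) y = ∑ i ∈ s, hv φ E (F i) y := by
  classical
  induction s using Finset.induction_on with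
  | empty => simp [hv]
  | insert a s ha ih =>
    rw [Finset.sum_insert ha, Finset.sum_insert ha,
      Pool.Agent.Helper16.UN.gHVB.1 K Ω φ σ E, ih]

theorem t_MHVT : Pool.Agent.Helper68.TG.M.MHVT := by
  intro K _ A B hAB σ _ _ b c hbc
  refine ⟨?_, ?_⟩
  · intro v
    rw [MP_eq A B hAB.deg b c]
    have hsum : ∀ (l : ℕ) (hl : l ≤ 1) (k : ℕ → K),
        degreeOf v (∑ i ∈ Finset.range (A.natDegree + 1), C (k i) * mo K b c i l) ≤
          EE A.natDegree b c v := by
      intro l hl k
      refine (degreeOf_sum_le v _ _).trans ?_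
      refine Finset.sup_le fun i hi => ?_
      have hi' : i ≤ A.natDegree := Nat.lt_succ_iff.1 (Finset.mem_range.1 hi)
      exact deg_mo A.natDegree b c hbc i l hi' hl (k i) v
    exact (degreeOf_add_le v _ _).trans
      (max_le (hsum 1 le_rfl _) (hsum 0 (by norm_num) fun i => - A.coeff i))
  · intro Ω _ _ y
    have hadd := Pool.Agent.Helper16.UN.gHVB.1 K Ω (algebraMap K Ω) σ (EE A.natDegree b c)
    have hC := Pool.Agent.Helper16.UN.gHVB.2.1 K Ω (algebraMap K Ω) σ (EE A.natDegree b c)
    have hm := fun (i l : ℕ) => hv_mo (algebraMap K Ω) A.natDegree b c hbc i l y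
    change hv (algebraMap K Ω) (EE A.natDegree b c) (MP A B b c) y = _
    rw [MP_eq A B hAB.deg b c, hadd, hv_sum, hv_sum, ph, ph, Finset.sum_mul, sub_eq_add_neg,
      Finset.sum_mul, ← Finset.sum_neg_distrib]
    congr 1
    · refine Finset.sum_congr rfl fun i _ => ?_
      rw [hC, hm]
      simp [mul_assoc]
    · refine Finset.sum_congr rfl fun i _ => ?_
      rw [hC, hm]
      simp [mul_assoc]

end

end Pool.Agent.Helper69.TG.MHVT
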